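import Mathlib
import Pool.Agent.H24GS.Br

/-!
# `ℓ`-Galois special points of `𝒜_g` have no simple factor with a large Galois image

Let `x` be a point of `𝒜_g` over a number field, or over a finitely generated field of characteristic
zero, embedded in `ℂ`, and let `X₀ = A_x` be the corresponding abelian variety. The question is
whether `X₀` has complex multiplication if `x` is `ℓ`-Galois special, that is, if no closed
irreducible subvariety `Z ∋ x` of positive dimension has the same group `G_{ℓ,Z} = G_{ℓ,x}`. We show
that `x` is not `ℓ`-Galois special if **one** simple factor `Y` of `X₀` over `ℂ` satisfies the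
Mumford-Tate conjecture, in one of the forms `GoodS` below, **whatever the other simple factors of
`X₀` are**: nothing is supposed about them, and the Mumford-Tate conjecture for `X₀` need not be
known. The result on file, `OneGoodFactor`, has a list of classes of `Y` for which all irreducible
parts of `ℂ ⊗ H_1(Y)` are standard representations and for which no other representation of the same
group can occur in `ℂ ⊗ H_1(X₀)` (`Wide`); these restrictions are removed.

**The setting.** `X` is an abelian variety which contains `X₀` as a direct factor (`X = X₀` is
allowed; `X = X₀ × B` serves to make the group theory rigid, see below), given with a Tate module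
`ℚ_ℓ ⊗ H_1(X)` with its known properties (`IsTateMod`, including the theorem of Deligne that Hodge
tensors are Tate tensors). Let `𝔥` be the Lie algebra of the Hodge group of `X` (`InHg`:
the endomorphisms which kill all Hodge tensors; `hgC` is its complexification), and let
`𝔤 = gen (htS X ρ χ)` be the Lie algebra generated by the involutions `D = 2 h - 1`, for the Hodge-Tate
elements `h` of `X` over `ℂ`. Let `isoP` be the part of `ℂ ⊗ H_1(X)` which belongs to `Y`. The
*parts* `U` of `Y` are the irreducible `ℂ ⊗ 𝔥`-submodules of `isoP`.

**The classes `GoodS` of simple factors `Y`.**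

1. `EmbAll` and `CopMult` (type IV). All embeddings `s` of a maximal subfield `ℚ[a]` of the
   endomorphism algebra of `Y` occur in the tangent space, and the multiplicity of some `s` in the
   tangent space is prime to the dimension `r` of the parts `U`. There is **no other condition on
   the signatures**. If all signatures are `(1, r - 1)` and `r ≥ 4`, the case of complex balls, then
   the exterior powers of the parts `U` are required to occur in `ℂ ⊗ H_1(X)`, up to twists by
   characters (`ExtPow`); this can be achieved by the choice of `X`, see below. (This is exactly the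
   case of type IV which does not satisfy the condition `Wide` of `OneGoodFactor`.) For instance, all
   simple `Y` of prime dimension with an imaginary quadratic endomorphism algebra belong to this
   class; together with `OneGoodFactor` it follows that an `ℓ`-Galois special point has no simple
   factor of prime dimension without complex multiplication.
2. `RankAll`. The Hodge-Tate elements do not act on the parts `U` by scalars and `𝔤` contains an
   element which is of rank one on `U`. For instance, `Y` satisfies the Mumford-Tate conjecture and
   the derived group of its Mumford-Tate group is over `ℂ` the product of the groups `Sp(U)` or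
   `SL(U)`, without compact factors. For instance, by the theorem of Pink, `End(Y) = ℤ` and `dim(Y)`
   does not belong to the exceptional set `{4, 10, 16, 32, 64, …}`. (Again `ExtPow` is required only
   if `U` is not self-dual and all involutions `D` have a simple eigenvalue on `U`.)
3. `FullAll`. `Y` satisfies the Mumford-Tate conjecture (`Full`), `𝔥` acts on the parts `U` by a simple
   Lie algebra up to scalars (`Simple`), of **any** type and by any representation, the Hodge-Tate
   elements do not act on `U` by scalars, and the abelian variety `X` is saturated (`Saturated`): all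
   irreducible representations of the Lie algebra `ℂ ⊗ 𝔥 | U` on which the Hodge-Tate elements have
   two weights occur in `ℂ ⊗ H_1(X)`, up to twists.

**Saturation.** The conditions `ExtPow` and `Saturated` on `X` can be achieved by replacing `X₀` by
`X = X₀ × B`. The representations in question are those which satisfy the condition of Satake and
Deligne. So they occur, after a twist by the Hodge structure of an abelian variety of CM type, in a
polarizable Hodge structure of type `(-1, 0), (0, -1)` obtained from tensor powers of `H_1(Y)`, which
is `H_1(B)` for an abelian variety `B` by the theorem of Riemann. If the signatures are `(1, r - 1)` at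
all places then this Hodge structure is simply `∧^k_F H_1(Y) ⊗_F T`. This is not formalized: the
conclusion is about `X₀`, but the hypothesis is about `X`.

**The Lie algebra `𝔫`** (`InNS`) is the smallest ideal of `𝔥` which has the same image in
`End H_1(Y)` as the derived algebra of `𝔥`; its image in `End H_1(X₀)` is `N`. The theorem says

* `N` is contained in the Lie algebra of the Hodge group of `X₀`;
* some element of `N` does not commute with the complex structure of `X₀`;
* `N` kills all Tate tensors of `X₀`, and if the connected monodromy group of a family of abelian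
  varieties through `X₀` is contained in the connected group with the Lie algebra `N` (`IsFamily`),
  then the Tate tensors of `X₀` are the same as those of the family (`SameTate`).

**Consequences.** By Faltings `G_{ℓ,x}` is reductive, and so it is determined by the Tate tensors;
hence it contains the connected group `H` with the Lie algebra `N`. This is the part of `G_x` which
belongs to `Y`, embedded in the other isotypic parts of `X₀` as in `G_x` (for this statement one has
to know the Mumford-Tate conjecture only for `Y`). As `𝔫` is an ideal of `𝔥`, `H` is a connected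
normal semisimple subgroup of `G_x`. The orbit of a lifting of `x` to the Siegel upper half space
under `H(ℝ)⁺` is a factor of the Hermitian symmetric domain of `G_x`, and by Moonen's theorem its
image `Z` in `𝒜_g` is a closed irreducible algebraic (weakly special) subvariety through `x`. It is of
positive dimension by the second statement. Its connected monodromy group is contained in `H`. Let
`L` be a finitely generated field of definition of `Z` and `x`, `Γ = Gal(L)`, `Γ'` the fundamental
group of (a finite covering of the normalization of) `Z_L`, and `P` its geometric fundamental group;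
the point `x` gives a section `s : Γ → Γ'`, and the third statement applies. So `G_{ℓ,Z} = G_{ℓ,x}` and
`x` is not `ℓ`-Galois special.

**The proof.** By Faltings `𝔤` and `ℂ ⊗ 𝔥` have the same stable subspaces and the same commutant, and
`𝔤 ⊆ ℂ ⊗ 𝔥` by Deligne. As `𝔤` is reductive, it has an ideal `𝔞` which is mapped isomorphically onto
the derived algebra of the restriction to `U`. Let `W` be an irreducible submodule of `ℂ ⊗ H_1(X)` on
which `𝔞` does not vanish. It is shown that the elements of the derived algebra of `ℂ ⊗ 𝔥` which
vanish on `U` also vanish on `W`. To this end write `D = d + P` with `d ∈ 𝔞`, where `P` commutes with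
`𝔞`. As `D ^ 2 = 1` and `W` is irreducible for the operators `D`, it turns out that `P` is a scalar on
`W`. So `W` is irreducible for `𝔞` and `D` has two weights on it; as `X` is saturated, there is a map
`f ≠ 0` from `W` to `ℂ ⊗ H_1(X)` for which the elements of `ℂ ⊗ 𝔥` which vanish on `U` act by scalars
on the image, and which is equivariant for `𝔤` up to a character; by the theorem of Faltings they act
by scalars on `W`. If the exterior powers of `U` occur then `X` is saturated: an irreducible
representation of `𝔰𝔩(U)` on which `D` has two weights, where one of the eigenvalues of `D` on `U` is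
simple, is an exterior power of `U`. This is proved by means of the eigenspaces of `D` and the
operators of rank one, without the theory of highest weights. Then `ℂ ⊗ 𝔫` is contained in `𝔤`, and the
elements of `𝔤` kill the Tate tensors.
-/

namespace Pool.Agent.Results.MP_09799c_ag.NoMumfordTateFactor

open Module Pool.Agent.Y90 Pool.Agent.R915 Pool.Agent.H24GS.St TensorProduct

/-- **Points which are not `ℓ`-Galois special.** Let `X` be an abelian variety over a number field or
a finitely generated field, given (as a complex abelian variety) by `X : AV`, a polarization `E` and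
the representation `ρ` of the Galois group `Γ` on the Tate module `ℚ_ℓ ⊗ H_1(X, ℚ)`, with the known
properties of the Tate module (`IsTateMod`; `χ` is the cyclotomic character, and `ℂ` is identified
with an algebraic closure of `ℚ_ℓ`). Let `X₀` be a direct factor of `X`, with the
homomorphisms `i : X₀ → X` and `p : X → X₀` (up to isogeny), and the Tate module `ρ₀`. Let `Y` be one
simple factor of `X₀` over `ℂ` which belongs to one of the classes `GoodS`. Let `N` be the image of
`𝔫` in `End H_1(X₀, ℚ)`. Then `N` is contained in the Lie algebra of the Hodge group of `X₀`; some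
element of `N` is not an endomorphism of `X₀`; all elements of `N` kill all Tate tensors of `X₀`; and
for a family of abelian varieties with monodromy in the group with the Lie algebra `N` the Tate
tensors of the fibre `X₀` are the Tate tensors of the family. -/
theorem result (X X₀ : AV) (E : X.H → X.H → ℚ) (hE : Pool.Agent.Y90.St.IsPolarization X.per E)
    (ℓ : ℕ) [Fact ℓ.Prime] [Algebra ℚ_[ℓ] ℂ] [Algebra.IsAlgebraic ℚ_[ℓ] ℂ]
    {Γ : Type} [Group Γ] (ρ : Representation ℚ_[ℓ] Γ (ℚ_[ℓ] ⊗[ℚ] X.H)) (χ : Γ →* ℚ_[ℓ])
    (hρ : IsTateMod X E ρ χ)
    (i : X₀.H →ₗ[ℚ] X.H) (p : X.H →ₗ[ℚ] X₀.H) (hip : IsDirect X₀ X i p)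
    (ρ₀ : Representation ℚ_[ℓ] Γ (ℚ_[ℓ] ⊗[ℚ] X₀.H)) (hρ₀ : IsEqv ρ₀ ρ (i.baseChange ℚ_[ℓ]))
    (Y : AV) (hY : IsFactor Y X₀) (hG : GoodS X ρ χ Y) (N : Set (Module.End ℚ X₀.H))
    (hN : N = {t₀ | ∃ t, InNS X Y t ∧ t₀ = p ∘ₗ t ∘ₗ i}) :
    (∀ t ∈ N, InHg X₀ t) ∧ (∃ t ∈ N, ¬ IsHom X₀ X₀ t) ∧
      SameTate ρ₀ χ ((fun t => t.baseChange ℚ_[ℓ]) '' N) := by
  obtain ⟨hi, hp, hpi⟩ := hip
  obtain ⟨hρ, hdel⟩ := hρ
  obtain ⟨hYs, i₀, hi₀, hi₀'⟩ := id hY
  have hYX : IsFactor Y X := ⟨hYs, i ∘ₗ i₀, IsHom.comp' hi hi₀, fun x y hxy => hi₀' (by
    have h1 : i (i₀ x) = i (i₀ y) := hxy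
    rw [← hpi (i₀ x), h1, hpi])⟩
  have hG' := Pool.Agent.H24GS.goodS_of hE hρ hdel hG
  subst hN
  have hk : ∀ (m : ℕ) (φ : MultilinearMap ℚ_[ℓ] (fun _ : Fin m × Fin 2 => ℚ_[ℓ] ⊗[ℚ] X₀.H) ℚ_[ℓ]),
      Pool.Agent.H204R3.SP.IsTate ρ₀ χ m φ → ∀ T ∈ (fun t => t.baseChange ℚ_[ℓ]) ''
        {t₀ : Module.End ℚ X₀.H | ∃ t, InNS X Y t ∧ t₀ = p ∘ₗ t ∘ₗ i},
        Pool.Agent.H204R3.SP.Kills T φ := by
    rintro m φ hφ _ ⟨_, ⟨t, ht, rfl⟩, rfl⟩
    exact Pool.Agent.H24GS.kills_retr hρ hi hp hpi hρ₀ hφ fun φ' hφ' =>
      Pool.Agent.H24GS.main_kills hE hρ hdel hYX hG' ht hφ'
  refine ⟨?_, ?_, hk, ?_⟩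
  · rintro _ ⟨t, ht, rfl⟩
    exact Pool.Agent.H24GS.inHg_retr hp hpi ht.hg
  · obtain ⟨t, ht, ht'⟩ := Pool.Agent.H24GS.main_exists hE hρ hdel hi hp hpi hY hG'
    exact ⟨_, ⟨t, ht, rfl⟩, ht'⟩
  intro Γ' _ ρ' χ' s P hF m φ
  refine ⟨fun hφ => hF.tate hφ (hk m φ hφ), fun hφ => ?_⟩
  obtain ⟨Δ, hΔ, h⟩ := hφ
  refine ⟨Δ.comap s, ⟨by
    rw [Subgroup.index_comap]
    exact (Subgroup.instFiniteIndex_subgroupOf Δ s.range).index_ne_zero⟩, fun g hg v => ?_⟩
  have h1 := h (s g) hg v
  rw [hF.rep, hF.cyc] at h1
  exact h1

end Pool.Agent.Results.MP_09799c_ag.NoMumfordTateFactor
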