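import Mathlib
import Pool.Agent.H24CC.C6

/-!
# One Tate class decides whether a point is `ℓ`-Galois special

Let `x` be a point of `𝒜_g` over a number field or over a finitely generated field of characteristic
zero, embedded in `ℂ`, and let `X = A_x` be the corresponding abelian variety. The point `x` is
`ℓ`-Galois special if no closed irreducible subvariety `Y ∋ x` of positive dimension has the same
group `G_{ℓ,Y} = G_{ℓ,x}`. By Faltings these groups are reductive, so the condition is about the Tate
tensors of `X`, in any number of variables: `G_{ℓ,Y} = G_{ℓ,x}` if and only if all Tate tensors of `X`
are Tate tensors of the family over `Y`. We show that it is a condition about the endomorphisms of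
`X` and **one** Tate class `θ = θ_x` in `H^1(X)^{⊗ 4}(2)`, that is, a class of codimension two on the
fourth power of `X`. Nothing is supposed about `X`.

**The class.** Let `𝔤` be the Lie algebra of the endomorphisms of the Tate module which kill all Tate
tensors (the Lie algebra of `G_{ℓ,x}` without the homotheties). The trace form is nondegenerate on
`𝔞 = [𝔤, 𝔤]`. Let `P` be the orthogonal projector of `End H_1(X, ℚ_ℓ)` onto `𝔞`. The class is the form
`θ(a, b, c, d) = ω(d, P(ω(b, -) a) c)`, where `ω` is the Weil pairing; it is the Casimir element of
`𝔞`. It is defined over the base field. The theorem (`Decides`) says:

1. the Galois group acts on `θ` through the square of the cyclotomic character;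
2. among the skew endomorphisms of the Tate module which commute with the endomorphisms of `X` those
   which kill `θ` are the ones which normalize `𝔤`;
3. if `t` and `t'` kill `θ` and the Tate tensors in two variables (the classes of divisors, or
   endomorphisms) then `[t, t']` kills **all** Tate tensors. So the group which is defined by the
   endomorphisms and `θ` has the same derived group as `G_{ℓ,x}`;
4. if `X` is the fibre at `x` of a family of abelian varieties over a base `Y` then all Tate tensors
   of `X` are Tate tensors of the family if and only if the endomorphisms of `X` and the class `θ`
   extend to the family (up to a finite covering of `Y`).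

By 4, **`x` is `ℓ`-Galois special if and only if `θ_x` does not extend to any subvariety `Y ∋ x` of
positive dimension to which the endomorphisms of `A_x` extend.** The question is whether such an `x`
over a number field is a CM point.

**Hodge classes.** Let `𝔥` be the Lie algebra of the Hodge group of `X` (`InHg`: the endomorphisms of
`H_1(X, ℚ)` which kill all Hodge tensors), and `brs X` the set of the brackets of its elements. It is
shown that

5. `θ` is a Hodge class, i.e. is killed by `𝔥` (`IsHodge`), if and only if all elements of `[𝔥, 𝔥]`
   kill all Tate tensors. So the Mumford-Tate conjecture for the derived group of `G_x` is equivalent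
   to the statement that the class `θ` is a Hodge class;
6. if `X` is not of CM type (`𝔥` is not commutative) and `θ` is a Hodge class then some element of
   `brs X` is not an endomorphism of `X`, all elements of `brs X` kill all Tate tensors, and for a
   family with monodromy in the derived group of the Mumford-Tate group of `X` the Tate tensors of
   the fibre are the Tate tensors of the family (`SameTate`). So `x` is not `ℓ`-Galois special: take
   for `Y` the image in `𝒜_g` of the orbit of `x` under the real points of this group; it is a
   special subvariety, and of positive dimension by the first statement.

**If `x` is `ℓ`-Galois special and not CM then `θ_x` is not a Hodge class.** So a counterexample to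
the question gives a Tate class of codimension two on `A_x ^ 4` which is not a Hodge class, and
the question is equivalent to the following: for all `x` over number fields which are not CM the
class `θ_x` extends, together with the endomorphisms, to a subvariety of positive dimension.
Classes on `A_x ^ 3` are not sufficient here: for the representation `∧^3` of `SL_6`, which belongs to
abelian varieties of dimension 10, the only invariant in four variables besides the polynomials in
the symplectic form is a symmetric tensor, and the symmetric tensors do not occur in the cohomology
of `A_x ^ 3` in degree four.

**The formalization.** `X : AV` is a complex abelian variety with the polarization `E`; `ρ` is the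
representation of the Galois group `Γ` on the Tate module `ℚ_ℓ ⊗ H_1(X, ℚ)`, and `IsTateMod` collects
its known properties: the Weil pairing, the theorems of Faltings, the Hodge-Tate decomposition (Tate,
Raynaud, Fontaine), the theorem of Serre that the Hodge-Tate elements generate the Lie algebra of
the image of `Γ`, and the theorem of Deligne that Hodge tensors are Tate tensors. A family is
described by the representation `ρ'` of the fundamental group `Γ'` of `Y`, the section `s : Γ → Γ'`
given by `x`, and the geometric fundamental group `P` (`IsFamily`); `IsMonodromy` says that `N` is
the Lie algebra of the connected monodromy group and that it is perfect. It is semisimple by a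
theorem of Deligne.

**The proof.** An endomorphism `T` which kills `θ` commutes with the projector `P`, and if it kills
the Tate tensors in two variables then it commutes with the commutant `C` of `𝔤`. For `X ∈ 𝔤` the
difference `X - P X` is in `C`, and for `Y ∈ 𝔞` the bracket of `T - P T` and `Y` is in `𝔞` and is
orthogonal to `𝔞`. So `T - P T` commutes with `𝔤` and is in `C`, and `[T, T'] = [P T, P T']`. The trace
form is nondegenerate on `𝔞` by Cartan's criterion; for this one has to know that the Lie algebra
`ℂ ⊗ 𝔤` is completely reducible and that its commutant commutes with a subgroup of finite
index of `Γ`. Both statements follow from the properties of the Hodge-Tate elements.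
-/

namespace Pool.Agent.Results.MP_09799c_ag.OneTateClass

open Module Pool.Agent.Y90 Pool.Agent.R915 Pool.Agent.H24GS.St Pool.Agent.H24CC.St TensorProduct

/-- **One Tate class decides.** Let `X` be an abelian variety over a number field or a finitely
generated field, given (as a complex abelian variety) by `X : AV`, a polarization `E` and the
representation `ρ` of the Galois group `Γ` on the Tate module `ℚ_ℓ ⊗ H_1(X, ℚ)`, with the known
properties of the Tate module (`IsTateMod`; `χ` is the cyclotomic character, and `ℂ` is identified
with an algebraic closure of `ℚ_ℓ`). There is a form `θ` in four variables on the Tate module with the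
following properties. It decides about all Tate tensors (`Decides`): it is a Tate tensor, on which
`Γ` acts through `χ ^ 2`; the bracket of two endomorphisms which kill `θ` and the Tate tensors in two
variables kills all Tate tensors; and the Tate tensors of `X` are the Tate tensors of a family
through `X` if and only if this holds for `θ` and for the Tate tensors in two variables. The form `θ`
is a Hodge class if and only if all brackets of elements of the Hodge Lie algebra of `X` kill all
Tate tensors. In this case, if the Hodge Lie algebra is not commutative, then some bracket is not an
endomorphism of `X`, and for a family with monodromy in the derived group of the Mumford-Tate group of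
`X` the Tate tensors of `X` are the Tate tensors of the family. -/
theorem result (X : AV) (E : X.H → X.H → ℚ) (hE : Pool.Agent.Y90.St.IsPolarization X.per E)
    (ℓ : ℕ) [Fact ℓ.Prime] [Algebra ℚ_[ℓ] ℂ] [Algebra.IsAlgebraic ℚ_[ℓ] ℂ]
    {Γ : Type} [Group Γ] (ρ : Representation ℚ_[ℓ] Γ (ℚ_[ℓ] ⊗[ℚ] X.H)) (χ : Γ →* ℚ_[ℓ])
    (hρ : IsTateMod X E ρ χ) :
    ∃ θ : MultilinearMap ℚ_[ℓ] (fun _ : Fin 2 × Fin 2 => ℚ_[ℓ] ⊗[ℚ] X.H) ℚ_[ℓ],
      Decides ρ χ θ ∧
      (IsHodge X θ ↔ ∀ t ∈ brs X, KillsAll ρ χ (t.baseChange ℚ_[ℓ])) ∧
      ((∃ a b, InHg X a ∧ InHg X b ∧ a * b ≠ b * a) → IsHodge X θ →
        (∃ t ∈ brs X, ¬ IsHom X X t) ∧
          SameTate ρ χ ((fun t => t.baseChange ℚ_[ℓ]) '' brs X)) :=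
  Pool.Agent.H24CC.main hE hρ.tate hρ.hodge

end Pool.Agent.Results.MP_09799c_ag.OneTateClass
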